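import Pool.Agent.Lib_helper99.FGA.Wanted

/-!
# Project FGA, block A10: the convolution identity for `f_M`
(adapted from FGP_P14b_helper45.lean)
-/

set_option autoImplicit false

namespace Pool.Agent.FGA

open Finset Pool.Agent.Var35 Pool.Agent.Var73 Pool.Agent.PV Pool.Agent.FGP
open scoped ArithmeticFunction ArithmeticFunction.Moebius

/-- the local factor of `bM M` -/
noncomputable def a10_loc (M p e : ℕ) : ℝ :=
  (if p ∣ M then (if e = 1 then -1 else 0) else
    if e = 1 then 2 / ((p : ℝ) - 2) else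
    if e = 2 then -(p : ℝ) / ((p : ℝ) - 2) else 0)

theorem a10_bM (M d : ℕ) : bM M d = ∏ p ∈ d.primeFactors, a10_loc M p (d.factorization p) := rfl

theorem a10_mul (M : ℕ) {m n : ℕ} (h : m.Coprime n) : bM M (m * n) = bM M m * bM M n := by
  rw [a10_bM, a10_bM, a10_bM, h.primeFactors_mul, Finset.prod_union h.disjoint_primeFactors]
  congr 1
  · refine Finset.prod_congr rfl fun p hp => ?_
    rw [Nat.factorization_eq_of_coprime_left h (Nat.mem_primeFactors_iff_mem_primeFactorsList.mp hp)]
  · refine Finset.prod_congr rfl fun p hp => ?_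
    rw [Nat.factorization_eq_of_coprime_right h (Nat.mem_primeFactors_iff_mem_primeFactorsList.mp hp)]

theorem a10_one (M : ℕ) : bM M 1 = 1 := by simp [a10_bM]

theorem a10_pow (M : ℕ) {p : ℕ} (hp : p.Prime) {j : ℕ} (hj : j ≠ 0) :
    bM M (p ^ j) = a10_loc M p j := by
  rw [a10_bM, Nat.primeFactors_prime_pow hj hp, Finset.prod_singleton, hp.factorization_pow]
  simp

/-- `bM M` as an arithmetic function -/
noncomputable def a10_B (M : ℕ) : ArithmeticFunction ℝ :=
  ⟨fun d => if d = 0 then 0 else bM M d, by simp⟩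

theorem a10_B_apply (M : ℕ) {d : ℕ} (hd : d ≠ 0) : a10_B M d = bM M d := by
  simp [a10_B, hd]

theorem a10_B_mult (M : ℕ) : (a10_B M).IsMultiplicative := by
  rw [ArithmeticFunction.IsMultiplicative.iff_ne_zero]
  refine ⟨by rw [a10_B_apply M one_ne_zero, a10_one], fun {m n} hm hn h => ?_⟩
  rw [a10_B_apply M (mul_ne_zero hm hn), a10_B_apply M hm, a10_B_apply M hn, a10_mul M h]

/-- `1/d` -/
noncomputable def a10_I : ArithmeticFunction ℝ := ⟨fun d => 1 / (d : ℝ), by simp⟩

theorem a10_I_mult : a10_I.IsMultiplicative := by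
  rw [ArithmeticFunction.IsMultiplicative.iff_ne_zero]
  refine ⟨by simp [a10_I], fun {m n} hm hn h => ?_⟩
  simp [a10_I]
  ring

/-- `(1/d) ∑_{i ∣ d} bM M i` -/
noncomputable def a10_H (M : ℕ) : ArithmeticFunction ℝ :=
  ArithmeticFunction.pmul a10_I (a10_B M * (ArithmeticFunction.zeta : ArithmeticFunction ℝ))

theorem a10_H_mult (M : ℕ) : (a10_H M).IsMultiplicative :=
  a10_I_mult.pmul ((a10_B_mult M).mul ArithmeticFunction.isMultiplicative_zeta.natCast)

theorem a10_H_apply (M d : ℕ) : a10_H M d = (1 / (d : ℝ)) * ∑ i ∈ d.divisors, bM M i := by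
  rw [a10_H, ArithmeticFunction.pmul_apply, ArithmeticFunction.coe_mul_zeta_apply]
  congr 1
  refine Finset.sum_congr rfl fun i hi => ?_
  exact a10_B_apply M (Nat.pos_of_mem_divisors hi).ne'

/-- the left side -/
noncomputable def a10_g (M p : ℕ) : ℝ := if p ∣ M then 1 else ((p : ℝ) - 1) / ((p : ℝ) - 2)

theorem a10_ne {M p : ℕ} (hM : 2 ∣ M) (h : ¬ p ∣ M) : (p : ℝ) - 2 ≠ 0 := by
  intro h'
  have h1 : (p : ℝ) = 2 := by linarith
  have h2 : p = 2 := by exact_mod_cast h1
  exact h (h2 ▸ hM)

theorem a10_S {M p : ℕ} (hM : 2 ∣ M) (hp : p.Prime) (j : ℕ) : ∑ i ∈ (p ^ j).divisors, bM M i =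
    if j = 0 then 1 else if p ∣ M then 0 else if j = 1 then (p : ℝ) / ((p : ℝ) - 2) else 0 := by
  rw [Nat.sum_divisors_prime_pow hp]
  have key : ∀ m : ℕ, ∑ x ∈ range (m + 3), bM M (p ^ x) = 1 + a10_loc M p 1 + a10_loc M p 2 := by
    intro m
    induction m with
    | zero =>
      rw [Finset.sum_range_succ, Finset.sum_range_succ, Finset.sum_range_succ,
        Finset.sum_range_zero, pow_zero, a10_one, a10_pow M hp (by norm_num : (0 : ℕ) + 1 ≠ 0),
        a10_pow M hp (by norm_num : (0 : ℕ) + 1 + 1 ≠ 0)]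
      ring
    | succ m ih =>
      rw [show m + 1 + 3 = (m + 3) + 1 from rfl, Finset.sum_range_succ, ih,
        a10_pow M hp (by omega : m + 3 ≠ 0)]
      have : a10_loc M p (m + 3) = 0 := by
        unfold a10_loc
        split_ifs <;> first | rfl | omega
      rw [this, add_zero]
  rcases j with _ | _ | j
  · simp [a10_one]
  · rw [Finset.sum_range_succ, Finset.sum_range_succ, Finset.sum_range_zero, pow_zero, a10_one,
      a10_pow M hp (by norm_num : (0 : ℕ) + 1 ≠ 0)]
    by_cases h2 : p ∣ M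
    · simp [a10_loc, h2]
    · have := a10_ne hM h2
      simp [a10_loc, h2]
      field_simp
      ring
  · rw [show j + 1 + 1 + 1 = j + 3 from rfl, key]
    by_cases h2 : p ∣ M
    · simp [a10_loc, h2]
    · have := a10_ne hM h2
      simp [a10_loc, h2]
      field_simp
      ring

theorem a10_pp {M p : ℕ} (hM : 2 ∣ M) (hp : p.Prime) (a : ℕ) (ha : a ≠ 0) :
    ∑ d ∈ (p ^ a).divisors, a10_H M d = a10_g M p := by
  rw [Nat.sum_divisors_prime_pow hp]
  have hp0 : (p : ℝ) ≠ 0 := by exact_mod_cast hp.ne_zero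
  have hv : ∀ j, a10_H M (p ^ j) = if j = 0 then 1 else if p ∣ M then 0 else
      if j = 1 then 1 / ((p : ℝ) - 2) else 0 := by
    intro j
    rw [a10_H_apply, a10_S hM hp]
    by_cases hj : j = 0
    · simp [hj]
    · by_cases h2 : p ∣ M
      · simp [hj, h2]
      · by_cases h1 : j = 1
        · have := a10_ne hM h2
          simp [h2, h1]
          field_simp
        · simp [hj, h2, h1]
  simp_rw [hv]
  obtain ⟨b, rfl⟩ := Nat.exists_eq_succ_of_ne_zero ha
  clear ha
  induction b with
  | zero =>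
    rw [Finset.sum_range_succ, Finset.sum_range_succ, Finset.sum_range_zero]
    by_cases h2 : p ∣ M
    · simp [a10_g, h2]
    · have := a10_ne hM h2
      simp [a10_g, h2]
      field_simp
      ring
  | succ b ih =>
    rw [Finset.sum_range_succ, ih]
    simp

/-- block A10 -/
theorem A10_pr : A10 := by
  intro M k _ hM hk
  have hF : (ArithmeticFunction.prodPrimeFactors (a10_g M) :
      ArithmeticFunction ℝ).IsMultiplicative :=
    ArithmeticFunction.IsMultiplicative.prodPrimeFactors _
  have hG : (a10_H M * (ArithmeticFunction.zeta : ArithmeticFunction ℝ)).IsMultiplicative :=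
    (a10_H_mult M).mul ArithmeticFunction.isMultiplicative_zeta.natCast
  have heq : (ArithmeticFunction.prodPrimeFactors (a10_g M) : ArithmeticFunction ℝ)
      = a10_H M * (ArithmeticFunction.zeta : ArithmeticFunction ℝ) := by
    rw [hF.eq_iff_eq_on_prime_powers _ _ hG]
    intro p a hp
    rcases Nat.eq_zero_or_pos a with ha | ha
    · subst ha
      rw [pow_zero, hF.map_one, hG.map_one]
    · rw [ArithmeticFunction.prodPrimeFactors_apply (pow_ne_zero _ hp.ne_zero),
        Nat.primeFactors_prime_pow ha.ne' hp, Finset.prod_singleton,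
        ArithmeticFunction.coe_mul_zeta_apply, a10_pp hM hp a ha.ne']
  have h1 := congrArg (fun f : ArithmeticFunction ℝ => f k) heq
  simp only [ArithmeticFunction.coe_mul_zeta_apply,
    ArithmeticFunction.prodPrimeFactors_apply (by omega : k ≠ 0)] at h1
  have h2 : FM M k = ∏ p ∈ k.primeFactors, a10_g M p := by
    unfold FM a10_g
    rw [Finset.prod_filter]
    refine Finset.prod_congr rfl fun p _ => ?_
    by_cases h : p ∣ M <;> simp [h]
  rw [h2, h1]
  exact Finset.sum_congr rfl fun d _ => a10_H_apply M d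

end Pool.Agent.FGA

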